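import Pool.Agent.L7h59.PP.Stm
import Pool.Agent.Q169.PT.All

/-!
# Project PP: part EXA
-/

set_option autoImplicit false

namespace Pool.Agent.L7h59.PP

open scoped Matrix
open Pool.Agent.H919R4.ZS (FinRes toRed L2)
open Pool.Agent.Q169.PT (Rep Tempered Van1 reg dm DD_apply mk mk_apply reg_tempered fhone inv norm_sq_eq)
open Pool.Agent.TH38.ZT (ExAt exAt_iff dd)
open Pool.Agent.Q111.FT (HH DD Ex DD_DD)
open ContinuousLinearMap (adjoint)

noncomputable section

/-- bounded below on the orthogonal complement of the kernel and injective adjoint: surjective -/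
theorem surj_of {H₁ H₂ : Type} [NormedAddCommGroup H₁] [InnerProductSpace ℂ H₁] [CompleteSpace H₁]
    [NormedAddCommGroup H₂] [InnerProductSpace ℂ H₂] [CompleteSpace H₂] (A : H₁ →L[ℂ] H₂)
    (δ : ℝ) (hδ : 0 < δ) (hA : ∀ v ∈ (LinearMap.ker A.toLinearMap)ᗮ, δ * ‖v‖ ^ 2 ≤ ‖A v‖ ^ 2)
    (hinj : ∀ z, adjoint A z = 0 → z = 0) (y : H₂) : ∃ x, A x = y := by
  have hcl : IsClosed (LinearMap.range A.toLinearMap : Set H₂) := by
    rw [← isSeqClosed_iff_isClosed]
    intro u l hu hl
    have h1 : ∀ n, ∃ v ∈ (LinearMap.ker A.toLinearMap)ᗮ, A v = u n := by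
      intro n
      obtain ⟨x, hx⟩ := hu n
      have hk : IsClosed (LinearMap.ker A.toLinearMap : Set H₁) := A.isClosed_ker
      have : CompleteSpace (LinearMap.ker A.toLinearMap) := hk.completeSpace_coe
      obtain ⟨p, hp, q, hq, rfl⟩ := (LinearMap.ker A.toLinearMap).exists_add_mem_mem_orthogonal x
      refine ⟨q, hq, ?_⟩
      have hp' : A p = 0 := hp
      rw [← hx]
      show A q = A (p + q)
      rw [map_add, hp', zero_add]
    choose v hv hv' using h1
    have hcau : CauchySeq v := by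
      have hcu : CauchySeq u := hl.cauchySeq
      rw [Metric.cauchySeq_iff] at hcu ⊢
      intro ε hε
      obtain ⟨N, hN⟩ := hcu (Real.sqrt δ * ε) (by positivity)
      refine ⟨N, fun m hm n hn => ?_⟩
      have h2 := hN m hm n hn
      rw [dist_eq_norm] at h2 ⊢
      have h3 := hA (v m - v n) (Submodule.sub_mem _ (hv m) (hv n))
      rw [map_sub, hv', hv'] at h3
      have h4 : ‖u m - u n‖ ^ 2 < (Real.sqrt δ * ε) ^ 2 :=
        pow_lt_pow_left₀ h2 (norm_nonneg _) (by norm_num)
      rw [mul_pow, Real.sq_sqrt hδ.le] at h4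
      have h5 : ‖v m - v n‖ ^ 2 < ε ^ 2 := by
        have := h3.trans_lt h4
        exact lt_of_mul_lt_mul_left this hδ.le
      exact lt_of_pow_lt_pow_left₀ 2 hε.le h5
    obtain ⟨x, hx⟩ := cauchySeq_tendsto_of_complete hcau
    refine ⟨x, ?_⟩
    have h6 : Filter.Tendsto (fun n => A (v n)) Filter.atTop (nhds (A x)) :=
      (A.continuous.tendsto x).comp hx
    have h7 : (fun n => A (v n)) = u := funext hv'
    rw [h7] at h6
    exact tendsto_nhds_unique h6 hl
  have hr : (LinearMap.range A.toLinearMap)ᗮ = ⊥ := by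
    rw [eq_bot_iff]
    intro z hz
    rw [Submodule.mem_bot]
    apply hinj
    refine ext_inner_right ℂ fun u => ?_
    rw [ContinuousLinearMap.adjoint_inner_left, inner_zero_left]
    have := (Submodule.mem_orthogonal' _ _).1 hz (A u) ⟨u, rfl⟩
    exact this
  have : CompleteSpace (LinearMap.range A.toLinearMap) := hcl.completeSpace_coe
  have htop : LinearMap.range A.toLinearMap = ⊤ := by
    rw [← Submodule.orthogonal_eq_bot_iff]
    exact hr
  have hy : y ∈ LinearMap.range A.toLinearMap := by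
    rw [htop]
    trivial
  exact hy

theorem s_EXA : S_EXA := by
  intro G _ hG X hlen hvan hadj i
  have hri : ∀ f : L2 G, (∀ g, (reg G).hom g f = f) → f = 0 := by
    obtain ⟨ρ, hρ, -, hρi, -⟩ := Pool.Agent.Q154.PT.Twist.twist G 1
    intro f hf
    refine hρi hG f fun g => ?_
    rw [hρ, hf]
    simp
  have d1 : ∀ v, dm (reg G) X 0 v = 0 → v = 0 := inv G (L2 G) X (reg G) hri
  have d2 : ∀ v : Fin (X.n 1) → L2 G, dm (reg G) X 1 v = 0 → ∃ w, dm (reg G) X 0 w = v :=
    fhone G (L2 G) X (reg G) (hvan (L2 G) (reg G) reg_tempered)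
  obtain ⟨δ, hδ, d5⟩ := Pool.Agent.Q169.PT.Cl.closed Pool.Agent.Q169.PT.Ul.ultra fhone G (L2 G) X
    (reg G) reg_tempered hvan
  have hD0 : ∀ v : Fin (X.n 0) → L2 G, ∀ k, (DD X 0 (mk (X.n 0) v)) k = dm (reg G) X 0 v k := by
    intro v k
    rw [DD_apply]
    rfl
  have hD1 : ∀ (v : HH G (X.n 1)) k, (DD X 1 v) k = dm (reg G) X 1 (fun j => v j) k := by
    intro v k
    rw [DD_apply]
  have hsurj : ∀ y : HH G (X.n 2), ∃ x, DD X 1 x = y := by
    refine surj_of (DD X 1) δ hδ (fun v hv => ?_) hadj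
    have h1 := d5 (fun j => v j) (fun w => by
      have h2 := (Submodule.mem_orthogonal _ _).1 hv (DD X 0 (mk (X.n 0) w)) (by
        show DD X 1 (DD X 0 (mk (X.n 0) w)) = 0
        exact DD_DD X 0 _)
      rw [PiLp.inner_apply] at h2
      rw [← h2]
      exact Finset.sum_congr rfl fun k _ => by rw [hD0])
    rw [PiLp.norm_sq_eq_of_L2, PiLp.norm_sq_eq_of_L2]
    refine h1.trans (le_of_eq (Finset.sum_congr rfl fun k _ => ?_))
    rw [hD1]
  have hex : Ex X := by
    constructor
    · intro v hv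
      have h := d1 (fun j => v j) (by
        funext k
        rw [← DD_apply, hv]
        rfl)
      apply PiLp.ext
      intro j
      exact congrFun h j
    · intro i v hv
      match i with
      | 0 =>
        obtain ⟨u, hu⟩ := d2 (fun j => v j) (by
          funext k
          rw [← DD_apply, hv]
          rfl)
        refine ⟨mk (X.n 0) u, ?_⟩
        apply PiLp.ext
        intro j
        rw [DD_apply]
        exact congrFun hu j
      | 1 => exact hsurj v
      | i + 2 =>
        refine ⟨0, ?_⟩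
        apply PiLp.ext
        intro j
        have hn : X.n (i + 2 + 1) = 0 := X.n_eq_zero _ (by omega)
        exact (Fin.cast hn j).elim0
  exact (exAt_iff X (toRed G) i).1 (hex.exAt i)

end

end Pool.Agent.L7h59.PP
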