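import Pool.Agent.L7h59.PP.Stm
import Pool.Agent.Q169.PT.Final

/-!
# Project PP: part FACT
-/

set_option autoImplicit false

namespace Pool.Agent.L7h59.PP

open scoped Matrix
open Pool.Agent.H919R4.ZS (FinRes toRed L2)
open Pool.Agent.Q169.PT (Rep Tempered Van1 reg dm DD_apply mk mk_apply)
open Pool.Agent.Q111.FT (HH DD)
open ContinuousLinearMap (adjoint)

noncomputable section

section

variable {G ι : Type} [Group G] {P : ι → Subgroup G} {X : FinRes G}

theorem inner_hom (g : G) (a b : L2 G) :
    inner ℂ ((reg G).hom g a) ((reg G).hom g b) = inner ℂ a b := by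
  let U : L2 G →ₗᵢ[ℂ] L2 G := ⟨((reg G).hom g).toLinearMap, (reg G).norm g⟩
  exact U.inner_map_map a b

theorem inner_hom' (g : G) (a b : L2 G) :
    inner ℂ a ((reg G).hom g b) = inner ℂ ((reg G).hom g⁻¹ a) b := by
  rw [← inner_hom g ((reg G).hom g⁻¹ a) b, ← ContinuousLinearMap.mul_apply, ← map_mul,
    mul_inv_cancel, map_one]
  rfl

/-- the function `y ↦ ∑ j, adjoint (y j) (z j)` -/
def FF (z : HH G (X.n 2)) : (Fin (X.n 2) → MonoidAlgebra ℤ G) →+ L2 G :=
  AddMonoidHom.mk' (fun y => ∑ j, adjoint ((reg G).alg (y j)) (z j)) fun y y' => by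
    rw [← Finset.sum_add_distrib]
    refine Finset.sum_congr rfl fun j _ => ?_
    rw [Pi.add_apply, map_add, map_add]
    rfl

theorem inner_FF (z : HH G (X.n 2)) (y : Fin (X.n 2) → MonoidAlgebra ℤ G) (u : L2 G) :
    inner ℂ (FF z y) u = ∑ j, inner ℂ (z j) ((reg G).alg (y j) u) := by
  show inner ℂ (∑ j, adjoint ((reg G).alg (y j)) (z j)) u = _
  rw [sum_inner]
  refine Finset.sum_congr rfl fun j _ => ?_
  rw [ContinuousLinearMap.adjoint_inner_left]

theorem alg_single (g : G) (u : L2 G) :
    (reg G).alg (MonoidAlgebra.single g 1) u = (reg G).hom g u := by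
  have h : (reg G).alg (MonoidAlgebra.single g 1) = (reg G).hom g := by
    change MonoidAlgebra.liftNC _ _ _ = _
    rw [MonoidAlgebra.liftNC_single]
    change ((1 : ℤ) : L2 G →L[ℂ] L2 G) * (reg G).hom g = _
    rw [Int.cast_one, one_mul]
  rw [h]

theorem FF_smul (z : HH G (X.n 2)) (y : Fin (X.n 2) → MonoidAlgebra ℤ G) (g : G) :
    FF z (fun j => y j * MonoidAlgebra.single g 1) = (reg G).hom g⁻¹ (FF z y) := by
  refine ext_inner_right ℂ fun u => ?_
  rw [inner_FF, ← inner_hom', inner_FF]
  refine Finset.sum_congr rfl fun j _ => ?_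
  rw [map_mul, ContinuousLinearMap.mul_apply, alg_single]

theorem FF_cob (z : HH G (X.n 2)) (hz : adjoint (DD X 1) z = 0)
    (x : Fin (X.n 1) → MonoidAlgebra ℤ G) : FF z (X.d 1 *ᵥ x) = 0 := by
  refine ext_inner_right ℂ fun u => ?_
  rw [inner_FF, inner_zero_left]
  have h1 : inner ℂ z (DD X 1 (mk (X.n 1) fun k => (reg G).alg (x k) u)) = 0 := by
    rw [← ContinuousLinearMap.adjoint_inner_left, hz, inner_zero_left]
  rw [PiLp.inner_apply] at h1
  rw [← h1]
  refine Finset.sum_congr rfl fun j _ => ?_
  congr 1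
  rw [DD_apply]
  unfold dm
  show (reg G).alg (∑ k, X.d 1 j k * x k) u = _
  rw [map_sum, ContinuousLinearMap.sum_apply]
  refine Finset.sum_congr rfl fun k _ => ?_
  rw [map_mul, ContinuousLinearMap.mul_apply]
  rfl

theorem FF_single (z : HH G (X.n 2)) (j : Fin (X.n 2)) : FF z (Pi.single j 1) = z j := by
  refine ext_inner_right ℂ fun u => ?_
  rw [inner_FF, Finset.sum_eq_single j]
  · rw [Pi.single_eq_same, map_one]
    rfl
  · intro k _ hk
    rw [Pi.single_eq_of_ne hk, map_zero]
    exact inner_zero_right _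
  · intro h
    exact absurd (Finset.mem_univ _) h

end

theorem s_FACT : S_FACT := by
  classical
  intro G ι _ P X w ε hD z hz
  have hind : ∀ y y', ε y = ε y' → FF z y = FF z y' := by
    intro y y' h
    obtain ⟨x, hx⟩ := (hD.ker (y - y')).1 (by rw [map_sub, h, sub_self])
    have h1 := FF_cob z hz x
    rw [hx, map_sub, sub_eq_zero] at h1
    exact h1
  have hex : ∀ a b : Cosets P, ∃ y, ε y = Finsupp.single a 1 - Finsupp.single b 1 := by
    intro a b
    rw [hD.range]
    rw [Finsupp.sum_sub_index (fun _ _ _ => rfl), Finsupp.sum_single_index rfl,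
      Finsupp.sum_single_index rfl, sub_self]
  choose y hy using hex
  refine ⟨fun a b => FF z (y a b), fun a b c => ?_, fun g a b => ?_, fun h => ?_⟩
  · show FF z (y a b) + FF z (y b c) = FF z (y a c)
    rw [← map_add]
    apply hind
    rw [map_add, hy, hy, hy]
    abel
  · show FF z (y (mv g a) (mv g b)) = _
    have hmap : ∀ g : G, ε (fun j => y a b j * MonoidAlgebra.single g⁻¹ 1) =
        (w g : ℤ) • (Finsupp.single (mv g a) (1 : ℤ) - Finsupp.single (mv g b) 1) := by
      intro g
      rw [hD.smul, hy, inv_inv, map_inv, Finsupp.mapDomain_sub, Finsupp.mapDomain_single,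
        Finsupp.mapDomain_single, Int.units_inv_eq_self]
    have h1 : FF z (y (mv g a) (mv g b)) =
        FF z ((w g : ℤ) • fun j => y a b j * MonoidAlgebra.single g⁻¹ 1) := by
      apply hind
      rw [hy, map_zsmul, hmap, smul_smul]
      have : (w g : ℤ) * (w g : ℤ) = 1 := by
        rcases Int.units_eq_one_or (w g) with h | h <;> rw [h] <;> norm_num
      rw [this, one_smul]
    rw [h1, map_zsmul, FF_smul, inv_inv, Int.cast_smul_eq_zsmul]
  · have hall : ∀ v, FF z v = 0 := by
      intro v
      by_cases hne : Nonempty (Cosets P)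
      · obtain ⟨b0⟩ := hne
        have h1 : ε v = ε ((ε v).sum fun a n => n • y a b0) := by
          rw [Finsupp.sum, map_sum]
          have h2 : ∀ a ∈ (ε v).support, ε ((ε v a) • y a b0) =
              Finsupp.single a (ε v a) - (ε v a) • Finsupp.single b0 (1 : ℤ) := by
            intro a _
            rw [map_zsmul, hy, smul_sub, Finsupp.smul_single, smul_eq_mul, mul_one]
          rw [Finset.sum_congr rfl h2, Finset.sum_sub_distrib, ← Finset.sum_smul]
          have h3 : ∑ a ∈ (ε v).support, ε v a = 0 := (hD.range (ε v)).1 ⟨v, rfl⟩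
          rw [h3, zero_smul, sub_zero]
          exact (Finsupp.sum_single (ε v)).symm
        rw [hind _ _ h1, Finsupp.sum, map_sum]
        refine Finset.sum_eq_zero fun a _ => ?_
        rw [map_zsmul]
        have := h a b0
        simp only at this
        rw [this, smul_zero]
      · rw [not_nonempty_iff] at hne
        have h1 : ε v = ε 0 := by
          ext a
          exact hne.elim a
        rw [hind _ _ h1, map_zero]
    apply PiLp.ext
    intro j
    rw [← FF_single z j, hall]
    rfl

end

end Pool.Agent.L7h59.PP
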