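import Pool.Agent.L7h59.PP.Stm
import Pool.Agent.Q169.PT.Br
import Pool.Agent.L7h76.PT.Fam

/-!
# Project PP: assembly
-/

set_option autoImplicit false

namespace Pool.Agent.L7h59.PP

open scoped Matrix Pointwise symmDiff
open Pool.Agent.H919R4.ZS (FinRes toRed L2)
open Pool.Agent.Q169.PT (Rep Tempered Van1 reg dm)
open Pool.Agent.Q111.FT (HH DD)

noncomputable section

theorem isAmenable_of {N : Type} [Group N] (h : Pool.Agent.Q169.PT.Pub.Amenable N) :
    Pool.Agent.H496R3.ZS.IsAmenable N := by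
  classical
  intro S ε hε
  obtain ⟨F, hF, hS⟩ := h S (ε / 2) (by positivity)
  refine ⟨F, hF, fun s hs => ?_⟩
  have h1 := hS s hs
  have e1 : ((s • (F : Set N)) \ (F : Set N)).ncard = ({x | x ∈ F ∧ s * x ∉ F} : Set N).ncard := by
    have e : ((s • (F : Set N)) \ (F : Set N)) = (fun x => s * x) '' {x | x ∈ F ∧ s * x ∉ F} := by
      ext y
      simp only [Set.mem_diff, Set.mem_smul_set, Finset.mem_coe, smul_eq_mul, Set.mem_image,
        Set.mem_setOf_eq]
      constructor
      · rintro ⟨⟨x, hx, rfl⟩, hy⟩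
        exact ⟨x, ⟨hx, hy⟩, rfl⟩
      · rintro ⟨x, ⟨hx, hy⟩, rfl⟩
        exact ⟨⟨x, hx, rfl⟩, hy⟩
    rw [e]
    exact Set.ncard_image_of_injective _ (mul_right_injective s)
  have hfin : (F : Set N).Finite := F.finite_toSet
  have hfin' : (s • (F : Set N)).Finite := hfin.smul_set
  have hc : (s • (F : Set N)).ncard = (F : Set N).ncard := by
    rw [← Set.image_smul]
    exact Set.ncard_image_of_injective _ (MulAction.injective s)
  have e2 : ((F : Set N) \ (s • (F : Set N))).ncard = ((s • (F : Set N)) \ (F : Set N)).ncard := by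
    have h3 := Set.ncard_inter_add_ncard_diff_eq_ncard (F : Set N) (s • (F : Set N)) hfin
    have h4 := Set.ncard_inter_add_ncard_diff_eq_ncard (s • (F : Set N)) (F : Set N) hfin'
    rw [Set.inter_comm] at h4
    omega
  have h2 : (((s • (F : Set N)) ∆ (F : Set N)).ncard : ℝ) ≤
      (((s • (F : Set N)) \ (F : Set N)).ncard : ℝ) + (((F : Set N) \ (s • (F : Set N))).ncard : ℝ) := by
    rw [← Nat.cast_add]
    exact Nat.cast_le.2 (Set.ncard_union_le _ _)
  rw [e2, e1] at h2
  linarith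

theorem main (hFACT : S_FACT) (hTZERO : S_TZERO) (hEXA : S_EXA) (hALG : S_ALG)
    {G ι : Type} [Group G] (P : ι → Subgroup G) (X : FinRes G) (w : G →* ℤˣ)
    (ε : (Fin (X.n 2) → MonoidAlgebra ℤ G) →+ (Cosets P →₀ ℤ)) (hlen : X.len ≤ 2)
    (hD : DualPair P X w ε) (hP : ∀ i, Infinite (P i)) (i0 : ι)
    (hA : Pool.Agent.Q169.PT.Pub.Amenable (P i0)) (hI : Infinite (G ⧸ P i0)) :
    ∃ (H : Type) (_ : NormedAddCommGroup H) (_ : InnerProductSpace ℂ H) (_ : CompleteSpace H)
      (π : Rep G H), Tempered π ∧ ¬ Van1 π := by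
  by_contra hcon
  have hvan : ∀ (H' : Type) [NormedAddCommGroup H'] [InnerProductSpace ℂ H'] [CompleteSpace H']
      (π' : Rep G H'), Tempered π' → Van1 π' := by
    intro H' i1 i2 i3 π' hπ'
    by_contra h
    exact hcon ⟨H', i1, i2, i3, π', hπ', h⟩
  have : Nonempty ι := ⟨i0⟩
  have := hP i0
  have hG : Infinite G := Infinite.of_injective _ (Subtype.val_injective (p := fun x => x ∈ P i0))
  have h1 : ∀ z : HH G (X.n 2), ContinuousLinearMap.adjoint (DD X 1) z = 0 → z = 0 := by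
    intro z hz
    obtain ⟨T, hT1, hT2, hT3⟩ := hFACT G ι P X w ε hD z hz
    exact hT3 (hTZERO G ι P w hP hvan T hT1 hT2)
  have h2 := hEXA G X hlen hvan h1
  exact hALG G ι P X w ε hlen hD i0 hI
    (Pool.Agent.H919R4.AS.coset X (isAmenable_of hA) hI (fun i _ => h2 i) 2 le_rfl)

end

end Pool.Agent.L7h59.PP
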