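import Pool.Agent.L7h59.PP.Fin

/-!
# Project PP: the final statement
-/

set_option autoImplicit false

namespace Pool.Agent.L7h59.PP

open Pool.Agent.H919R4.ZS (FinRes toRed)
open Pool.Agent.Q169.PT.Pub (URep IsCocycle WeaklyRegular PropertyT RelativeT Amenable)
open Pool.Agent.L7h76.PT

/-- the conjugate `g S g⁻¹` -/
def conj {G : Type} [Group G] (g : G) (S : Subgroup G) : Subgroup G :=
  S.map (MulAut.conj g).toMonoidHom

/-- `N` is weakly quasinormal in `G`: the only subgroup `S` of `G` that contains `N` and all the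
elements `g` for which `S ∩ g S g⁻¹` is nonamenable is `G`. -/
def WeaklyQuasinormal {G : Type} [Group G] (N : Subgroup G) : Prop :=
  ∀ S : Subgroup G, N ≤ S → (∀ g : G, ¬ Amenable ↥(S ⊓ conj g S) → g ∈ S) → S = ⊤

/-- Every cocycle of `M` for a unitary representation on a Hilbert space which is weakly contained in
the regular representation of `M` is a coboundary. -/
def NoTemperedCocycles (M : Type) [Group M] : Prop :=
  ∀ (H : Type) [NormedAddCommGroup H] [InnerProductSpace ℂ H] [CompleteSpace H] (ρ : URep M H)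
    (c : M → H), WeaklyRegular ρ → IsCocycle ρ c → ∃ w, ∀ g, c g = ρ.act g w - w

/-- `(G, P)` is a Poincare duality pair of dimension three, in the form: `X` is a finite free
resolution of length at most two and `H²(G; ℤ[G])` is isomorphic to the augmentation kernel of
`⊕ ℤ[G ⧸ P i]`, twisted by a character `w : G → {1, -1}` (`DualPair`). -/
def PoincarePair {G : Type} [Group G] {ι : Type} (P : ι → Subgroup G) (X : FinRes G) : Prop :=
  X.len ≤ 2 ∧ ∃ w ε, DualPair P X w ε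

theorem concl (hFACT : S_FACT) (hTZERO : S_TZERO) (hEXA : S_EXA) (hALG : S_ALG)
    {G ι : Type} [Group G] (P : ι → Subgroup G) (X : FinRes G) (hX : PoincarePair P X)
    (hP : ∀ i, Infinite (P i)) (hA : ∃ i, Amenable (P i) ∧ ¬ (P i).FiniteIndex) :
    (∃ (H : Type) (_ : NormedAddCommGroup H) (_ : InnerProductSpace ℂ H) (_ : CompleteSpace H)
      (π : URep G H) (b : G → H), WeaklyRegular π ∧ IsCocycle π b ∧
        (∀ w : H, ∃ g : G, b g ≠ π.act g w - w) ∧
        ∃ F : Set (Subgroup G),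
          (∀ S ∈ F, ¬ S.FiniteIndex ∧ ¬ Amenable S) ∧
          (∀ N : Subgroup G, ¬ Amenable N → ((∃ C : ℝ, ∀ g ∈ N, ‖b g‖ ≤ C) ↔ ∃ S ∈ F, N ≤ S)) ∧
          (∀ S ∈ F, ∀ g : G, conj g S ∈ F) ∧
          (∀ S ∈ F, ∀ g : G, g ∉ S → Amenable ↥(S ⊓ conj g S)) ∧
          (∀ S ∈ F, ∀ T ∈ F, S ≠ T → Amenable ↥(S ⊓ T)) ∧
          (∀ M : Subgroup G, ¬ Amenable M → NoTemperedCocycles M → ∃ S ∈ F, M ≤ S) ∧
          (∀ (M : Subgroup G) (N : Subgroup M), N.Normal → ¬ Amenable N → RelativeT M N →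
            ∃ S ∈ F, M ≤ S)) ∧
    (∀ N : Subgroup G, ¬ Amenable N → WeaklyQuasinormal N →
      ¬ NoTemperedCocycles N ∧ ¬ PropertyT N) ∧
    (∀ N : Subgroup G, (∀ g : G, ¬ Amenable ↥(N ⊓ conj g N)) → WeaklyQuasinormal N) ∧
    ∃ i ≤ 2, ¬ Subsingleton (X.homology (toRed G) i) := by
  obtain ⟨hlen, w, ε, hD⟩ := hX
  obtain ⟨i0, hA0, hI0⟩ := hA
  have hI : Infinite (G ⧸ P i0) := by
    by_contra h
    rw [not_infinite_iff_finite] at h
    exact hI0 (Subgroup.finiteIndex_of_finite_quotient (H := P i0))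
  obtain ⟨H, i1, i2, i3, π, hπ, hv⟩ :=
    main hFACT hTZERO hEXA hALG P X w ε hlen hD hP i0 hA0 hI
  unfold Pool.Agent.Q169.PT.Van1 at hv
  push Not at hv
  obtain ⟨b, hb, hw⟩ := hv
  have hwq : ∀ N : Subgroup G, WeaklyQuasinormal N → ∀ S ∈ Fam hb, ¬ N ≤ S := by
    intro N hN S hS hNS
    apply fam_ne_top hb hw S hS
    apply hN S hNS
    intro g hg
    by_contra hc
    exact hg (fam_malnormal hb hπ S hS g hc)
  refine ⟨⟨H, i1, i2, i3, Pool.Agent.Q169.PT.Br.toU π, b, Pool.Agent.Q169.PT.Br.tempered π hπ, hb, hw,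
    Fam hb, fun S hS => ⟨fam_index hb hw S hS, hS.1⟩, fam_iff hb, fam_conj hb,
    fam_malnormal hb hπ, fam_inter hb hπ, fun M hM hv => fam_van hb hπ M hM hv,
    fam_T hb hπ⟩, ?_, ?_, ?_⟩
  · intro N hN hq
    refine ⟨fun hv => ?_, fun hT => ?_⟩
    · obtain ⟨S, hS, hNS⟩ := fam_van hb hπ N hN hv
      exact hwq N hq S hS hNS
    · obtain ⟨S, hS, hNS⟩ := fam_T hb hπ N ⊤ inferInstance (fun h => hN
        (amenable_of_inj (Subgroup.topEquiv (G := N)).symm.toMonoidHom
          (MulEquiv.injective _) h)) hT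
      exact hwq N hq S hS hNS
  · intro N hN S hNS hS
    rw [eq_top_iff]
    intro g _
    apply hS g
    exact not_amenable_of_le (inf_le_inf hNS (Subgroup.map_mono hNS)) (hN g)
  · by_contra hc
    push Not at hc
    exact hALG G ι P X w ε hlen hD i0 hI
      (Pool.Agent.H919R4.AS.coset X (isAmenable_of hA0) hI hc 2 le_rfl)

end Pool.Agent.L7h59.PP
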