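import Pool.Agent.Q169.PT.All
import Pool.Agent.Q111.FT.ConvB

/-!
# Project PP (MP_04c03c_gt, the relative Cannon conjecture): Poincare duality pairs

Jobs: FACT, TZERO, EXA, ALG. `G` is a group with a finite free resolution `X` of length at most two, and
`H²(G; ℤ[G])` is isomorphic to the augmentation kernel of `⊕ ℤ[G ⧸ P i]` (twisted by a character `w`),
that is, `(G, P)` is a Poincare duality pair of dimension three.
-/

set_option autoImplicit false

namespace Pool.Agent.L7h59.PP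

open scoped Matrix
open Pool.Agent.H919R4.ZS (FinRes toRed L2)
open Pool.Agent.Q169.PT (Rep Tempered Van1 reg dm)
open Pool.Agent.Q111.FT (HH DD)
open ContinuousLinearMap (adjoint)

noncomputable section

/-- The disjoint union of the coset spaces `G ⧸ P i`. -/
abbrev Cosets {G : Type} [Group G] {ι : Type} (P : ι → Subgroup G) : Type := Σ i, G ⧸ P i

/-- `g (i, x) = (i, g x)` -/
def mv {G : Type} [Group G] {ι : Type} {P : ι → Subgroup G} (g : G) (a : Cosets P) : Cosets P :=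
  ⟨a.1, g • a.2⟩

/-- `ε` induces an isomorphism of `H²(G; ℤ[G]) = coker (X.d 1 *ᵥ ·)` with the augmentation kernel
of `⊕ ℤ[G ⧸ P i]`, `G` acting through the character `w`. -/
structure DualPair {G : Type} [Group G] {ι : Type} (P : ι → Subgroup G) (X : FinRes G)
    (w : G →* ℤˣ) (ε : (Fin (X.n 2) → MonoidAlgebra ℤ G) →+ (Cosets P →₀ ℤ)) : Prop where
  ker : ∀ y, ε y = 0 ↔ ∃ z, X.d 1 *ᵥ z = y
  range : ∀ f, (∃ y, ε y = f) ↔ (f.sum fun _ n => n) = 0
  smul : ∀ y g, ε (fun j => y j * MonoidAlgebra.single g 1) =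
    (w g : ℤ) • Finsupp.mapDomain (mv g⁻¹) (ε y)

/-- **JOB FACT.** An `ℓ²`-cycle `z` of degree two (`adjoint (DD X 1) z = 0`) as a function of two
cosets.

PROOF. For `y : Fin (X.n 2) → ℤ[G]` put `F y = ∑ j, adjoint ((reg G).alg (y j)) (z j)` in `L2 G`, so
`⟪F y, u⟫ = ∑ j, ⟪z j, (reg G).alg (y j) u⟫`. `F` is additive,
`F (y * g) = adjoint ((reg G).hom g) (F y) = (reg G).hom g⁻¹ (F y)`, and `F (X.d 1 *ᵥ x) = 0`:
`⟪F (X.d 1 *ᵥ x), u⟫ = ⟪z, DD X 1 ((reg G).alg (x k) u)_k⟫ = ⟪adjoint (DD X 1) z, _⟫ = 0`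
(`DD_apply` and `reg_alg` of Pool/Agent/Q169/PT/Final.lean). So `F y` depends only on `ε y`. Put
`T a b = F y` for any `y` with `ε y = single a 1 - single b 1` (exists by `range`). By `smul`
`F (y') = w(g) (reg G).hom g (F y)` if `ε y' = mapDomain (mv g) (ε y)`. If `T = 0` then `F y = 0`
for all `y` (every `f` with sum `0` is a combination of differences `single a 1 - single b 1`; use
additivity, or show `F y = ∑ a, (ε y a) • T a b0`), and `F (Pi.single j 1) = z j`. -/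
def S_FACT : Prop :=
  ∀ (G ι : Type) [Group G] (P : ι → Subgroup G) (X : FinRes G) (w : G →* ℤˣ)
    (ε : (Fin (X.n 2) → MonoidAlgebra ℤ G) →+ (Cosets P →₀ ℤ)), DualPair P X w ε →
    ∀ z : HH G (X.n 2), adjoint (DD X 1) z = 0 →
      ∃ T : Cosets P → Cosets P → L2 G, (∀ a b c, T a b + T b c = T a c) ∧
        (∀ (g : G) (a b : Cosets P), T (mv g a) (mv g b) = ((w g : ℤ) : ℂ) • (reg G).hom g (T a b)) ∧
        ((∀ a b, T a b = 0) → z = 0)

/-- **JOB TZERO.** Such functions vanish if all tempered cocycles are coboundaries and the `P i` are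
infinite.

PROOF. By TWIST (`Pool.Agent.Q154.PT.Twist.twist : S_TWIST`) there is a tempered `π` with
`π.hom g f = w(g) • (reg G).hom g f`. If `f : L2 G` satisfies `π.hom h f = f` for all `h` in an infinite
subgroup `Q` then `f = 0`: `|f (h⁻¹ x)| = |f x|` for `h ∈ Q`, and `f` is square summable (compare the
proof of TWIST; `Pool.Agent.H919R4.ZS.tendsto_cofinite`). Fix `a0 = ⟨i0, 1⟩`. `c g = T (mv g a0) a0` is a
cocycle for `π` (`c (g h) = T (g h a0) (g a0) + T (g a0) a0 = π(g) c(h) + c(g)`), so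
`c g = π(g) v - v`. For `p ∈ P i0` one has `mv p a0 = a0` and `c p = T a0 a0 = 0`, so `v` is invariant
under `P i0`, `v = 0`, `c = 0`. Let `a = ⟨i, g⟩`. For `h ∈ g (P i) g⁻¹`, `mv h a = a` and
`π(h) (T a a0) = T a (mv h a0) = T a a0 - T (mv h a0) a0 = T a a0 - c h = T a a0`, so `T a a0 = 0`
(`g (P i) g⁻¹` is infinite). So `T a b = T a a0 - T b a0 = 0` (`T a a = 0`). -/
def S_TZERO : Prop :=
  ∀ (G ι : Type) [Group G] [Nonempty ι] (P : ι → Subgroup G) (w : G →* ℤˣ),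
    (∀ i, Infinite (P i)) →
    (∀ (H' : Type) [NormedAddCommGroup H'] [InnerProductSpace ℂ H'] [CompleteSpace H']
      (π' : Rep G H'), Tempered π' → Van1 π') →
    ∀ T : Cosets P → Cosets P → L2 G, (∀ a b c, T a b + T b c = T a c) →
      (∀ (g : G) (a b : Cosets P), T (mv g a) (mv g b) = ((w g : ℤ) : ℂ) • (reg G).hom g (T a b)) →
      ∀ a b, T a b = 0

/-- **JOB EXA.** Exactness.

PROOF. Compare `final'` in Pool/Agent/Q169/PT/Final.lean. `Ex X` (Pool/Agent/Q111/FT/ConvB.lean):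
`inj` by INV (`Pool.Agent.Q169.PT.inv`; the regular representation of an infinite group has no invariant
vectors, by TWIST with `w = 1`). `ex 0` by FHONE (`Pool.Agent.Q169.PT.fhone`) for `reg G` (tempered by
`reg_tempered`). `ex 1`: `DD X 1` is onto. It has closed range: by CLOSED
(`Pool.Agent.Q169.PT.Cl.closed Pool.Agent.Q169.PT.Ul.ultra fhone`, see Pool/Agent/Q169/PT/All.lean) there is
`δ > 0` with `δ ‖v‖² ≤ ‖DD X 1 v‖²` for `v` orthogonal to the range of `DD X 0`, which is the kernel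
of `DD X 1`, a closed subspace. And its adjoint is injective, so the range is dense
(`ContinuousLinearMap.orthogonal_range`). (Or: `D = DD X 1 ∘ adjoint` is bounded below on the closure of the
range; or S_HIL with `A := DD X 1`, `B := 0`, whose first hypothesis on adjoints is the injectivity of
`adjoint 0 : 0 → _`; take `H₃ = PUnit`-like `HH G (X.n 3)`, `X.n 3 = 0`.) `ex i` for `i ≥ 2`: `X.n (i + 1) = 0`.
Then `(exAt_iff X (toRed G) i).1 (hex.exAt i)`. -/
def S_EXA : Prop :=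
  ∀ (G : Type) [Group G] [Infinite G] (X : FinRes G), X.len ≤ 2 →
    (∀ (H' : Type) [NormedAddCommGroup H'] [InnerProductSpace ℂ H'] [CompleteSpace H']
      (π' : Rep G H'), Tempered π' → Van1 π') →
    (∀ z : HH G (X.n 2), adjoint (DD X 1) z = 0 → z = 0) →
    ∀ i, Subsingleton (X.homology (toRed G) i)

/-- **JOB ALG.** `H²(G; ℤ[G ⧸ P i]) ≠ 0`.

PROOF. Let `C = P i`, `a0 = ⟨i, 1⟩`, `θ f = (f a0 : ZMod 2)`. For `p ∈ C`:
`θ (ε (y * p)) = w(p) (ε y) (p a0) = θ (ε y)` in `ZMod 2` (`(mapDomain (mv p⁻¹) f) a0 = f a0` as `mv p⁻¹` is a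
bijection which fixes `a0`; `w p = ± 1`). Let `Q : ℤ[G] → (G ⧸ C →₀ ℤ)`, `Q a = a.coeff.mapDomain mk`;
`cobdZ X (G ⧸ C) 1 (Q ∘ x) = Q ∘ (X.d 1 *ᵥ x)` (see Pool/Agent/Q169/PT/Pdc.lean, which has this), and `Q` is
onto. There is an additive `Ψ : (Fin (X.n 2) → (G ⧸ C →₀ ℤ)) →+ ZMod 2` with
`Ψ (Q ∘ y) = θ (ε y)`: `Ψ v = ∑ j, (v j).sum fun c n => n • θ (ε (Pi.single j (single c.out 1)))`. So
`Ψ (cobdZ (Q ∘ x)) = θ (ε (X.d 1 *ᵥ x)) = 0`. If the cohomology were trivial then (`X.n 3 = 0`, everything is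
a cocycle) `cobdZ X (G ⧸ C) 1` would be onto and `Ψ = 0`, `θ (ε y) = 0` for all `y`. But
`single a 1 - single a0 1`, `a ≠ a0`, is of the form `ε y`, and `θ` of it is `-1 ≠ 0`. -/
def S_ALG : Prop :=
  ∀ (G ι : Type) [Group G] (P : ι → Subgroup G) (X : FinRes G) (w : G →* ℤˣ)
    (ε : (Fin (X.n 2) → MonoidAlgebra ℤ G) →+ (Cosets P →₀ ℤ)), X.len ≤ 2 → DualPair P X w ε →
    ∀ i, Infinite (G ⧸ P i) → ¬ Subsingleton (Pool.Agent.H919R4.AS.cohomologyZ X (G ⧸ P i) 2)

end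

end Pool.Agent.L7h59.PP
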