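import Pool.Agent.L7h59.PP.Stm
import Pool.Agent.Q154.PT.Twist

/-!
# Project PP: part TZERO
-/

set_option autoImplicit false

namespace Pool.Agent.L7h59.PP

open scoped Matrix ENNReal
open Pool.Agent.H919R4.ZS (FinRes toRed L2)
open Pool.Agent.Q169.PT (Rep Tempered Van1 reg dm)
open Pool.Agent.Q154.PT.Twist (tw tw_hom s norm_s reg_hom)

noncomputable section

/-- no vectors invariant under an infinite subgroup -/
theorem fixed_inf {G : Type} [Group G] (w : G →* ℤˣ) (Q : Set G) (hQ : Q.Infinite) (f : L2 G)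
    (hf : ∀ g ∈ Q, (tw w).hom g f = f) : f = 0 := by
  have : Infinite Q := hQ.to_subtype
  ext x
  have h1 : ∀ h : Q, ‖f ((h : G)⁻¹ * x)‖ = ‖f x‖ := by
    intro h
    have e := congrArg (fun F : L2 G => F x) (hf h h.2)
    simp only [] at e
    rw [tw_hom, lp.coeFn_smul, Pi.smul_apply, smul_eq_mul, reg_hom] at e
    rw [← e, norm_mul, norm_s, one_mul]
  have h2 : 0 < (2 : ℝ≥0∞).toReal := by norm_num
  have h3 := ((memℓp_gen_iff h2).1 (lp.memℓp f)).tendsto_cofinite_zero
  have hinj : Function.Injective fun h : Q => (h : G)⁻¹ * x := by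
    intro a b hab
    have := mul_right_cancel hab
    exact Subtype.ext (inv_injective this)
  have h3' := h3.comp hinj.tendsto_cofinite
  have h4 : Filter.Tendsto (fun _ : Q => ‖f x‖ ^ (2 : ℝ≥0∞).toReal) Filter.cofinite (nhds 0) := by
    refine h3'.congr fun h => ?_
    simp only [Function.comp_apply]
    rw [h1 h]
  have h5 : ‖f x‖ ^ (2 : ℝ≥0∞).toReal = 0 := tendsto_nhds_unique tendsto_const_nhds h4
  have h6 : ‖f x‖ = 0 := by
    have : (2 : ℝ≥0∞).toReal = 2 := by norm_num
    rw [this] at h5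
    norm_num at h5
    simpa using h5
  simpa using h6

theorem mv_mul {G : Type} [Group G] {ι : Type} {P : ι → Subgroup G} (g h : G) (a : Cosets P) :
    mv (g * h) a = mv g (mv h a) := by
  unfold mv
  rw [mul_smul]

theorem s_TZERO : S_TZERO := by
  intro G ι _ hne P w hP hvan T hadd heq
  have heq' : ∀ (g : G) (a b : Cosets P), T (mv g a) (mv g b) = (tw w).hom g (T a b) := heq
  have hself : ∀ a, T a a = 0 := by
    intro a
    have := hadd a a a
    simpa using this
  obtain ⟨i0⟩ := hne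
  set a0 : Cosets P := ⟨i0, ((1 : G) : G ⧸ P i0)⟩ with ha0
  have hfix : ∀ p ∈ P i0, mv p a0 = a0 := by
    intro p hp
    rw [ha0]
    unfold mv
    congr 1
    show ((p * 1 : G) : G ⧸ P i0) = _
    rw [mul_one]
    exact QuotientGroup.eq.2 (by simpa using (P i0).inv_mem hp)
  obtain ⟨v, hv⟩ := hvan (L2 G) (tw w) (Pool.Agent.Q154.PT.Twist.tempered w)
    (fun g => T (mv g a0) a0) (by
      intro g h
      show T (mv (g * h) a0) a0 = T (mv g a0) a0 + (tw w).hom g (T (mv h a0) a0)
      rw [← heq', ← mv_mul, add_comm]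
      exact (hadd _ _ _).symm)
  have hv0 : v = 0 := by
    refine fixed_inf w (P i0 : Set G) (Set.infinite_coe_iff.1 (hP i0)) v fun p hp => ?_
    have := hv p
    rw [hfix p hp, hself] at this
    exact (sub_eq_zero.1 this.symm)
  have hc : ∀ g, T (mv g a0) a0 = 0 := by
    intro g
    rw [hv g, hv0, map_zero, sub_zero]
  have hsym : ∀ a b, T a b = - T b a := by
    intro a b
    have := hadd a b a
    rw [hself] at this
    exact eq_neg_of_add_eq_zero_left this
  have key : ∀ a, T a a0 = 0 := by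
    rintro ⟨i, x⟩
    obtain ⟨g, rfl⟩ := QuotientGroup.mk_surjective x
    refine fixed_inf w ((fun h => g * h * g⁻¹) '' (P i : Set G))
      ((Set.infinite_coe_iff.1 (hP i)).image (fun a _ b _ hab => by
        have := mul_right_cancel hab
        exact mul_left_cancel this)) _ ?_
    rintro _ ⟨p, hp, rfl⟩
    have h1 : mv (g * p * g⁻¹) (⟨i, (g : G ⧸ P i)⟩ : Cosets P) = ⟨i, (g : G ⧸ P i)⟩ := by
      unfold mv
      congr 1
      show ((g * p * g⁻¹ * g : G) : G ⧸ P i) = _
      rw [inv_mul_cancel_right]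
      exact QuotientGroup.eq.2 (by simpa using (P i).inv_mem hp)
    rw [← heq', h1]
    have h2 := hadd (⟨i, (g : G ⧸ P i)⟩ : Cosets P) a0 (mv (g * p * g⁻¹) a0)
    rw [← h2, hsym a0, hc, neg_zero, add_zero]
  intro a b
  rw [← hadd a a0 b, key, hsym a0 b, key, neg_zero, add_zero]

end

end Pool.Agent.L7h59.PP
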